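import Pool.Agent.SGT.Funct

/-!
# Sections and the criterion `F(s) = 1` for generic twists

Let `k` be a finitely generated field of characteristic `0`, `K₁` a function field of one variable
over `k`, `h ∈ K₁` not zero, `m > 0`, and `K₀ = K₁(w)` with `w ^ m = h`: the function field of a cyclic
cover `C₀` of the curve `C₁` of `K₁`. The generic twist of `C₀` is the curve `X` over `B = k(t)` with
the function field `K = B K₁(y)`, `y ^ m = t h`. Let `ℓ` be a prime number, `ℓ ∣ m`, and let one of the
following hold:

* `C₁` has over `k^alg` at least three points at which the order of `h` is not divisible by `ℓ ^ a`,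
  where `ℓ ^ a ∣ m`;
* `C₀` has over `k^alg` an unramified cyclic cover of degree `ℓ` (this holds for all curves of
  genus `≥ 1`).

The theorem: for all unramified (finite étale) covers `X'` of `X` every section of
`π₁(X') → Gal(B^alg / B)` is the section of a `B`-rational point of `X'`, and `F(s) = {1}`. Hence the
criterion holds: a section comes from a rational point if and only if `F(s) = {1}`. If `X'` has no
rational point, then every curve `U` over `B`, proper or not, with a nonconstant map to `X'` satisfies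
the criterion (there are no sections).

For example `X` can be the hyperelliptic curve `t y² = f(x)`, where `f ∈ k[x]` is separable of degree
`≥ 3`; its rational points are the Weierstrass points over the roots of `f` in `k` (and over infinity if
the degree of `f` is odd).
-/

set_option autoImplicit false

namespace Pool.Agent.Results.MP_3dd09b_ag.GenericTwists

theorem result (k : Type) [Field k] [CharZero k]
    (hk : ∃ S : Finset k, IntermediateField.adjoin ℚ (S : Set k) = ⊤)
    (K₁ : Type) [Field K₁] [Algebra k K₁] (hK₁ : GTS.IsFunctionField k K₁)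
    (h : K₁) (h0 : h ≠ 0) (m : ℕ) (hm : 0 < m)
    (K₀ : Type) [Field K₀] [Algebra k K₀] [Algebra K₁ K₀] [IsScalarTower k K₁ K₀] (w : K₀)
    (hw : w ^ m = algebraMap K₁ K₀ h) (hK₀ : IntermediateField.adjoin K₁ {w} = ⊤)
    (ℓ a : ℕ) (hℓ : ℓ.Prime) (hlm : ℓ ∣ m) (ha : ℓ ^ a ∣ m)
    (hyp : 3 ≤ (GTS.Branch k K₁ (ℓ ^ a) h).ncard ∨ GTS.UnrCover k K₀ ℓ)
    (B K : Type) [Field B] [Field K] [Algebra k B] [Algebra k K] [Algebra B K] [Algebra K₁ K]
    [IsScalarTower k B K] [IsScalarTower k K₁ K] (t : B) (y : K)
    (hB : IntermediateField.adjoin k {t} = ⊤) (ht : Transcendental K₁ (algebraMap B K t))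
    (hy : y ^ m = algebraMap B K t * algebraMap K₁ K h)
    (hK : IntermediateField.adjoin B (Set.range (algebraMap K₁ K) ∪ {y}) = ⊤)
    (K' : Type) [Field K'] [Algebra B K'] [Algebra K K'] [IsScalarTower B K K']
    (ι : K' →ₐ[K] SCJ.Om K) (hι : ∀ z, ι z ∈ FSC.MU B K Set.univ) :
    FSC.Criterion B K' Set.univ ∧
    (∀ s : FSC.SectU B K' Set.univ, s.Geometric ∧ s.F = {1}) ∧
    (IsEmpty (SCJ.RatPlace B K') → ∀ (K'' : Type) [Field K''] [Algebra B K''] [Algebra K' K'']
      [IsScalarTower B K' K''] (U : Set (ValuationSubring K'')),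
      FSC.Criterion B K'' U ∧ IsEmpty (FSC.SectU B K'' U)) := by
  have hfin : ∀ s : FSC.SectU B K' Set.univ, s.Geometric ∧ s.F = {1} := fun s =>
    SGT.final SGT.a_K11x SGT.a_P4 k hk K₁ hK₁ h m hm h0 K₀ w hw hK₀ ℓ a hℓ hlm ha hyp B K t y
      hB ht hy hK K' ι hι s
  have hchar : CharZero B := charZero_of_injective_algebraMap (algebraMap k B).injective
  refine ⟨fun s => ⟨fun _ => (hfin s).2, fun _ => (hfin s).1⟩, hfin, ?_⟩
  intro hempty K'' _ _ _ _ U
  have h3 : IsEmpty (FSC.SectU B K'' U) := ⟨fun s => by
    obtain ⟨s'⟩ := SGT.sectFun (B := B) (K := K') (K' := K'') U s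
    obtain ⟨P, -⟩ := (hfin s').1
    exact hempty.elim P⟩
  exact ⟨fun s => h3.elim s, h3⟩

end Pool.Agent.Results.MP_3dd09b_ag.GenericTwists
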