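import Pool.Agent.MP_3dd09b_ag.FS.U1
import Pool.Agent.MP_c1dca2_ag.SUP.K9

/-!
# Sections and the criterion `F(s) = 1` for curves over ramified superelliptic curves

Let `k` be a field of characteristic `0` and `A ⊆ k` a discrete valuation ring with finite residue
field (every field which is finitely generated over `ℚ` has such a subring: it embeds into a `p`-adic
field), and let `ℓ` be a prime which is not the residue characteristic. Let `F ∈ k[X]` be a
polynomial such that `ℓ` divides the degree of `F` and no multiplicity of a prime factor of `F`, such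
that the value of the leading coefficient is not divisible by `ℓ`, and such that the radical of `F` has
good reduction without a root in the residue field: the prime factors of `F` are those of some
`g ∈ A[X]` whose reduction is separable of the same degree `≥ 3` and has no root in the residue field.
Let `ℓ ∣ m` and let `U` be a curve over `k`, proper or not, whose function field contains `x`, `y` with
`x` transcendental and `y^m = F(x)`. Then there is no section of `π₁(U) → Gal(k^alg / k)`, and
(therefore) a section comes from a rational point of `U` if and only if `F(s) = 1`.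
-/

set_option autoImplicit false

open Polynomial IsLocalRing

namespace Pool.Agent.Results.MP_3dd09b_ag.RamifiedSuperellipticCovers

theorem result (k : Type) [Field k] [CharZero k] (A : ValuationSubring k)
    [IsDiscreteValuationRing A] [Finite (ResidueField A)] (ℓ : ℕ) (hℓ : ℓ.Prime)
    (hA : (ℓ : ResidueField A) ≠ 0)
    (g : A[X]) (hsep : (g.map (residue A)).Separable)
    (hdeg : (g.map (residue A)).natDegree = g.natDegree) (h3 : 3 ≤ g.natDegree)
    (hroot : ∀ a, (g.map (residue A)).eval a ≠ 0)
    (F : k[X]) (hFg : ∀ p : k[X], Irreducible p → (p ∣ F ↔ p ∣ g.map A.subtype))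
    (hmult : ∀ p : k[X], Irreducible p → p ∣ F → ¬ ℓ ∣ multiplicity p F)
    (hdvd : ℓ ∣ F.natDegree) (hlc : ∀ b : k, A.valuation F.leadingCoeff ≠ A.valuation b ^ ℓ)
    (m : ℕ) (hm : ℓ ∣ m) (K : Type) [Field K] [Algebra k K] (x y : K)
    (hx : Transcendental k x) (hxy : y ^ m = aeval x F) (U : Set (ValuationSubring K)) :
    FSC.Criterion k K U ∧ IsEmpty (FSC.SectU k K U) := by
  have hF0 : F ≠ 0 := by
    rintro rfl
    exact hlc 0 (by rw [leadingCoeff_zero, map_zero, zero_pow hℓ.ne_zero])
  have h := SUP.local_main A ℓ hℓ hA g hsep hdeg h3 hroot F hF0 ⟨hFg, hmult, hdvd⟩ 1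
    (by simpa using hlc) m hm
  rw [C_1, one_mul] at h
  obtain ⟨-, h1, -⟩ := h K x y hx hxy
  have h2 : IsEmpty (FSC.SectU k K U) := ⟨fun s => by
    obtain ⟨t⟩ := FSC.sect_of_sectU U s
    exact h1.elim t⟩
  exact ⟨fun s => h2.elim s, h2⟩

end Pool.Agent.Results.MP_3dd09b_ag.RamifiedSuperellipticCovers
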