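import Pool.Agent.MP_c1dca2_ag.SC7.F
import Pool.Agent.MP_3dd09b_ag.FS.U1

/-!
# Sections and the criterion `F(s) = 1` for curves over the everywhere locally soluble quadratic
twists of a hyperelliptic curve

Let `k` be a number field and `f ∈ k[X]` separable of even degree `≥ 6` without a root in `k`. If `f`
has an irreducible factor of degree two, we suppose that it also has an irreducible factor of odd
degree. Then for 100% of the `c ∈ 𝓞 k` (ordered by the coordinates with respect to any `ℤ`-basis of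
`𝓞 k`) **for which `y² = c f(x)` has points in all completions of `k`** the following holds for every
curve `U` over `k`, proper or not, whose function field contains `x, y` with `x` transcendental and
`y² = c f(x)`: there is no section of `π₁(U) → Gal(k^alg / k)`, and (therefore) a section comes
from a rational point of `U` if and only if `F(s) = 1`. The number of the exceptional `c` in
`[-N, N]^n` is smaller than the number of all `c` for which the curve is everywhere locally soluble by a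
power of `log N`, and the latter number is at least a constant times `N^n / log N`.
-/

set_option autoImplicit false

open NumberField Polynomial

namespace Pool.Agent.Results.MP_3dd09b_ag.SolubleTwistCovers

private theorem aux {k F : Type} [Field k] [Field F] (φ : k →+* F) (f : k[X]) :
    φ (f.eval 0) ^ 2 = eval 0 ((C (f.eval 0) * f).map φ) := by
  rw [Polynomial.map_mul, Polynomial.map_C, eval_mul, eval_C, ← coeff_zero_eq_eval_zero,
    ← coeff_zero_eq_eval_zero, coeff_map, sq]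

theorem result (k : Type) [Field k] [NumberField k] (f : k[X]) (hsep : f.Separable)
    (heven : Even f.natDegree) (h6 : 6 ≤ f.natDegree) (hroot : ∀ a : k, f.eval a ≠ 0)
    (hquad : (∃ g : k[X], Irreducible g ∧ g ∣ f ∧ g.natDegree = 2) →
      ∃ g : k[X], Irreducible g ∧ g ∣ f ∧ Odd g.natDegree)
    (ι : Type) [Fintype ι] (b : Module.Basis ι ℤ (𝓞 k)) :
    (∃ δ A : ℝ, 0 < δ ∧ ∀ N : ℕ, 2 ≤ N →
      (Nat.card {c : ι → ℤ // (∀ i, |c i| ≤ N) ∧ c ≠ 0 ∧
        SEC.LocallySoluble k (C ((∑ i, c i • b i : 𝓞 k) : k) * f) ∧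
        ¬ FSC.NoSectionU k (C ((∑ i, c i • b i : 𝓞 k) : k) * f)} : ℝ) ≤
      A * Real.log N ^ (-δ) *
      (Nat.card {c : ι → ℤ // (∀ i, |c i| ≤ N) ∧ c ≠ 0 ∧
        SEC.LocallySoluble k (C ((∑ i, c i • b i : 𝓞 k) : k) * f)} : ℝ)) ∧
    ∃ (a : ℝ) (N₀ : ℕ), 0 < a ∧
      ∀ N : ℕ, N₀ ≤ N → a * (N : ℝ) ^ (Fintype.card ι) / Real.log N ≤
        (Nat.card {c : ι → ℤ // (∀ i, |c i| ≤ N) ∧ c ≠ 0 ∧
          SEC.LocallySoluble k (C ((∑ i, c i • b i : 𝓞 k) : k) * f)} : ℝ) := by
  obtain ⟨⟨δ, A, hδ, h⟩, h2⟩ := SC7.main f hsep heven h6 hroot hquad b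
  refine ⟨⟨δ, A, hδ, fun N hN => le_trans ?_ (h N hN)⟩, h2 ⟨f.eval 0, hroot 0, ?_, ?_⟩⟩
  · have hbox : {c : ι → ℤ | ∀ i, |c i| ≤ N}.Finite := by
      classical
      refine (Fintype.piFinset fun _ : ι => Finset.Icc (-(N : ℤ)) N).finite_toSet.subset ?_
      intro c hc
      rw [Finset.mem_coe, Fintype.mem_piFinset]
      intro i
      rw [Finset.mem_Icc]
      exact abs_le.1 (hc i)
    have hfin : {c : ι → ℤ | (∀ i, |c i| ≤ (N : ℤ)) ∧ c ≠ 0 ∧
        SEC.LocallySoluble k (C ((∑ i, c i • b i : 𝓞 k) : k) * f) ∧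
        ¬ SCJ.NoSection k (C ((∑ i, c i • b i : 𝓞 k) : k) * f)}.Finite :=
      hbox.subset fun c hc => hc.1
    have hle : Nat.card {c : ι → ℤ // (∀ i, |c i| ≤ (N : ℤ)) ∧ c ≠ 0 ∧
        SEC.LocallySoluble k (C ((∑ i, c i • b i : 𝓞 k) : k) * f) ∧
        ¬ FSC.NoSectionU k (C ((∑ i, c i • b i : 𝓞 k) : k) * f)} ≤
        Nat.card {c : ι → ℤ // (∀ i, |c i| ≤ (N : ℤ)) ∧ c ≠ 0 ∧
          SEC.LocallySoluble k (C ((∑ i, c i • b i : 𝓞 k) : k) * f) ∧
          ¬ SCJ.NoSection k (C ((∑ i, c i • b i : 𝓞 k) : k) * f)} :=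
      Nat.card_mono hfin fun c hc =>
        ⟨hc.1, hc.2.1, hc.2.2.1, fun hno => hc.2.2.2 (FSC.noSectionU _ hno)⟩
    exact_mod_cast hle
  · exact fun v => ⟨0, algebraMap k _ (f.eval 0), aux _ f⟩
  · exact fun v => ⟨0, algebraMap k _ (f.eval 0), aux _ f⟩

end Pool.Agent.Results.MP_3dd09b_ag.SolubleTwistCovers
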