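import Pool.Agent.MP_c1dca2_ag.SUU.U7
import Pool.Agent.MP_3dd09b_ag.FS.U1

/-!
# Sections and the criterion `F(s) = 1` for curves over 100% of all superelliptic curves

Let `k` be a number field. We consider the superelliptic curves `y^m = c(a) F(x)` over `k`, where
`F ∈ k[X]` is monic with the prime factors of `G(a, x) f_1(x) ⋯ f_r(x)`. Here `a ∈ 𝓞 k` and the
monic polynomials `f_i ∈ 𝓞 k[X]` of degree `n_i ≥ 2` vary over all points of a box (with respect to
a `ℤ`-basis of `𝓞 k`), `G ∈ k[t][x]` is fixed and such that `G(0, x)` is separable, of the degree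
of `G` in `x`, and without a root fixed by a suitable element of its Galois group (`G = 1` is
allowed), and `c ∈ k[t]` has a simple zero at `0`. As the sides of the box tend to infinity, 100% of
the points have the property that for **all** exponents `m`, **all** such `F` and **all** primes
`ℓ ∣ m` which divide the degree of `F` and no multiplicity of a prime factor of `F`, the following
holds for every curve `U` over `k`, proper or not, whose function field contains `x, y` with `x`
transcendental and `y^m = c(a) F(x)`: there is no section of `π₁(U) → Gal(k^alg / k)`, and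
(therefore) a section comes from a rational point of `U` if and only if `F(s) = 1`. This is uniform
in the position of the box (upper Banach density zero).

* `G = 1`, `c = t`: 100% of all superelliptic curves `y^m = a f_1(x)^(e_1) ⋯ f_r(x)^(e_r)`; e.g. all
  `y^m = a f(x)` with `gcd (m, deg f) > 1`. Every curve `y^m = F(x)`, `m ∣ deg F`, is isomorphic to
  one of these.
* `r = 0`, `c = t`, `G ∈ k[x]`: 100% of the twists of one curve.
* `r = 0`: 100% of the curves of a family `y^m = F(t, x)` with one parameter, if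
  `F(t, x) = t F₁(t, x)`, `deg_x F₁ = deg F₁(0, x)` and `F₁(0, x)` is separable as above.
-/

set_option autoImplicit false

open NumberField Polynomial

namespace Pool.Agent.Results.MP_3dd09b_ag.SuperellipticCovers

/-- The polynomial `G(a, x)`. -/
noncomputable abbrev ev {k : Type} [Field k] (G : k[X][X]) (a : k) : k[X] :=
  G.map (evalRingHom a)

/-- For every curve `U` over `k` (open or not) with a nonconstant map to the curve `y^m = F(x)` the
criterion holds, and there are no sections of `π₁(U) → Gal(k^alg / k)`. -/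
def NoSecU (k : Type) [Field k] (m : ℕ) (F : k[X]) : Prop :=
  ∀ (K : Type) [Field K] [Algebra k K] (x y : K), Transcendental k x → y ^ m = aeval x F →
    ∀ U : Set (ValuationSubring K), FSC.Criterion k K U ∧ IsEmpty (FSC.SectU k K U)

/-- For all exponents `m`, all monic `F` with the same prime factors as `g` and all primes `ℓ ∣ m`
which divide the degree of `F` and no multiplicity of a prime factor of `F`, there are no sections
over the curve `y^m = c F(x)`. -/
def AllSecU (k : Type) [Field k] (g : k[X]) (c : k) : Prop :=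
  ∀ (m : ℕ) (F : k[X]) (ℓ : ℕ), ℓ.Prime → ℓ ∣ m → F.Monic → SUP.Adm ℓ F g →
    NoSecU k m (C c * F)

theorem allSecU {k : Type} [Field k] [CharZero k] (g : k[X]) (c : k) (h : SUP.AllSec k g c) :
    AllSecU k g c := by
  intro m F ℓ hℓ hm hF hadm K _ _ x y hx hxy U
  obtain ⟨-, h1, -⟩ := h m F ℓ hℓ hm hF hadm K x y hx hxy
  have h2 : IsEmpty (FSC.SectU k K U) := ⟨fun s => by
    obtain ⟨t⟩ := FSC.sect_of_sectU U s
    exact h1.elim t⟩
  exact ⟨fun s => h2.elim s, h2⟩

theorem result (k : Type) [Field k] [NumberField k] (ι : Type) [Fintype ι]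
    (b : Module.Basis ι ℤ (𝓞 k)) (r : Type) [Fintype r] (n : r → ℕ) (hn : ∀ i, 2 ≤ n i)
    (G : k[X][X]) (hdeg : (ev G 0).natDegree = G.natDegree) (hsep : (ev G 0).Separable)
    (hσ : (Irreducible (ev G 0) ∧ 2 ≤ G.natDegree) ∨
      ∃ σ : (ev G 0).SplittingField ≃ₐ[k] (ev G 0).SplittingField,
        ∀ x : (ev G 0).SplittingField, aeval x (ev G 0) = 0 → σ x ≠ x)
    (h3 : 3 ≤ G.natDegree + ∑ i, n i)
    (c : k[X]) (hc : c.eval 0 = 0) (hc' : c.derivative.eval 0 ≠ 0) (ε : ℝ) (hε : 0 < ε) :
    ∃ M : ℕ, ∀ (u : SUU.Idx n ι → ℤ) (N : SUU.Idx n ι → ℕ), (∀ x, M ≤ N x) →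
      (Nat.card {z : SUU.Idx n ι → ℤ // (∀ x, u x ≤ z x ∧ z x < u x + N x) ∧
        ¬ AllSecU k (ev G (SUU.aOf b z : k) *
          ∏ i, SUU.mon (n i) (fun j => (SUU.cOf b z i j : k))) (c.eval (SUU.aOf b z : k))} : ℝ) ≤
        ε * ∏ x, (N x : ℝ) := by
  classical
  obtain ⟨c₁, rfl⟩ : X ∣ c := by
    rw [X_dvd_iff, coeff_zero_eq_eval_zero]
    exact hc
  have hc₁ : c₁.eval 0 ≠ 0 := by
    intro h
    apply hc'
    rw [derivative_mul, derivative_X, one_mul, eval_add, eval_mul, eval_X, zero_mul, add_zero]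
    exact h
  obtain ⟨M, hM⟩ := SUU.main b n hn G c₁ hc₁ hdeg hsep h3 hσ ε hε
  refine ⟨M, fun u N hN => ?_⟩
  have h1 := hM u N hN
  simp only [eval_mul, eval_X]
  refine le_trans ?_ h1
  have hbox : {z : SUU.Idx n ι → ℤ | ∀ x, u x ≤ z x ∧ z x < u x + N x}.Finite := by
    refine Set.Finite.subset (Fintype.piFinset
      (fun x : SUU.Idx n ι => Finset.Ico (u x) (u x + N x))).finite_toSet ?_
    intro c hc
    simp only [Finset.mem_coe, Fintype.mem_piFinset, Finset.mem_Ico]
    exact hc
  have hfin : {z : SUU.Idx n ι → ℤ | (∀ x, u x ≤ z x ∧ z x < u x + N x) ∧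
      ¬ SUP.AllSec k (ev G (SUU.aOf b z : k) *
        ∏ i, SUU.mon (n i) (fun j => (SUU.cOf b z i j : k)))
        ((SUU.aOf b z : k) * c₁.eval (SUU.aOf b z : k))}.Finite :=
    hbox.subset fun z hz => hz.1
  have hle : Nat.card {z : SUU.Idx n ι → ℤ // (∀ x, u x ≤ z x ∧ z x < u x + N x) ∧
      ¬ AllSecU k (ev G (SUU.aOf b z : k) *
        ∏ i, SUU.mon (n i) (fun j => (SUU.cOf b z i j : k)))
        ((SUU.aOf b z : k) * c₁.eval (SUU.aOf b z : k))} ≤
      Nat.card {z : SUU.Idx n ι → ℤ // (∀ x, u x ≤ z x ∧ z x < u x + N x) ∧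
      ¬ SUP.AllSec k (ev G (SUU.aOf b z : k) *
        ∏ i, SUU.mon (n i) (fun j => (SUU.cOf b z i j : k)))
        ((SUU.aOf b z : k) * c₁.eval (SUU.aOf b z : k))} :=
    Nat.card_mono hfin fun z hz => ⟨hz.1, fun hno => hz.2 (allSecU _ _ hno)⟩
  exact_mod_cast hle

end Pool.Agent.Results.MP_3dd09b_ag.SuperellipticCovers
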